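import Mathlib
import Pool.Agent.Helper679.CurveFinal

set_option autoImplicit false
set_option linter.unusedSectionVars false

/-!
Closed curves of length `π` in Euclidean space of dimension at least two: the smallest
farthest-point distance is at most `1`, and it equals `1` exactly for the relative boundaries of
plane convex bodies of constant width `1`.
-/

open Set Real

namespace Pool.Agent.Results.MP_30679c_gt.ClosedCurves

section Definitions

variable {E : Type*} [NormedAddCommGroup E] [InnerProductSpace ℝ E]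

/-- The distance from `x` to a farthest point of `C`. -/
noncomputable def farthest (C : Set E) (x : E) : ℝ :=
  sSup ((fun y => dist x y) '' C)

/-- The distance of the two supporting hyperplanes of `B` orthogonal to the unit vector `u`. -/
noncomputable def width (B : Set E) (u : E) : ℝ :=
  sSup ((fun x => inner ℝ x u) '' B) - sInf ((fun x => inner ℝ x u) '' B)

/-- `B` is a plane convex body of constant width `1`: it is compact and convex, it spans a
two-dimensional affine plane, and in every direction `u` of that plane the two supporting lines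
orthogonal to `u` are at distance `1`. -/
def IsPlaneBodyOfConstantWidthOne (B : Set E) : Prop :=
  IsCompact B ∧ Convex ℝ B ∧ Module.finrank ℝ (vectorSpan ℝ B) = 2 ∧
    ∀ u ∈ vectorSpan ℝ B, ‖u‖ = 1 → width B u = 1

end Definitions

open Pool.Agent.Helper679.Curve

section Plane

lemma sInf_eq (K : Set (EuclideanSpace ℝ (Fin 2))) (t : ℝ) :
    sInf ((fun x => inner ℝ x (uv t)) '' K) = - supp K (t + π) := by
  rw [Real.sInf_def, supp]
  congr 2
  ext r
  simp only [Set.mem_neg, Set.mem_image, uv_add_pi, inner_neg_right]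
  constructor
  · rintro ⟨x, hx, h⟩; exact ⟨x, hx, by rw [h]; ring⟩
  · rintro ⟨x, hx, h⟩; exact ⟨x, hx, by rw [← h]; ring⟩

lemma width_eq (K : Set (EuclideanSpace ℝ (Fin 2))) (t : ℝ) :
    width K (uv t) = supp K t + supp K (t + π) := by
  have h2 : sSup ((fun x => inner ℝ x (uv t)) '' K) = supp K t := rfl
  rw [width, sInf_eq, h2, sub_neg_eq_add]

lemma width_one_iff (K : Set (EuclideanSpace ℝ (Fin 2))) :
    (∀ u : EuclideanSpace ℝ (Fin 2), ‖u‖ = 1 → width K u = 1) ↔
      ∀ t, supp K t + supp K (t + π) = 1 := by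
  constructor
  · intro h t
    rw [← width_eq]
    exact h (uv t) (J1136.uv_norm t)
  · intro h u hu
    obtain ⟨t, ht⟩ := J1136.exists_uv u
    rw [hu, one_smul] at ht
    rw [ht, width_eq]
    exact h t

end Plane

section Space

variable {E : Type*} [NormedAddCommGroup E] [InnerProductSpace ℝ E]

/-- `farthest C x` is a maximum, for a compact non-empty `C`. -/
lemma farthest_isGreatest (C : Set E) (hC : IsCompact C) (hne : C.Nonempty) (x : E) :
    IsGreatest ((fun y => dist x y) '' C) (farthest C x) := by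
  have hc : IsCompact ((fun y => dist x y) '' C) := hC.image (by fun_prop)
  exact ⟨hc.sSup_mem (hne.image _), fun r hr => le_csSup hc.bddAbove hr⟩

lemma exists_far (C : Set E) (hC : IsCompact C) (hne : C.Nonempty) (x : E) :
    ∃ y ∈ C, dist x y = farthest C x := by
  obtain ⟨y, hy, h⟩ := (farthest_isGreatest C hC hne x).1
  exact ⟨y, hy, h⟩

lemma farthest_continuous (C : Set E) (hC : IsCompact C) : Continuous (farthest C) := by
  have h : Continuous (fun x : E => sSup ((fun y : E => dist x y) '' C)) :=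
    IsCompact.continuous_sSup (f := fun x y : E => dist x y) hC (by
      exact continuous_dist)
  exact h

lemma intrinsicFrontier_eq_frontier (K : Set E) (h : affineSpan ℝ K = ⊤) :
    intrinsicFrontier ℝ K = frontier K := by
  have ho : IsOpen ((affineSpan ℝ K : AffineSubspace ℝ E) : Set E) := by
    rw [h]; exact isOpen_univ
  have hom : IsOpenMap ((↑) : affineSpan ℝ K → E) := ho.isOpenMap_subtype_val
  unfold intrinsicFrontier
  rw [← hom.preimage_frontier_eq_frontier_preimage continuous_subtype_val,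
    image_preimage_eq_inter_range, inter_eq_left]
  intro x _
  have hx : x ∈ affineSpan ℝ K := by rw [h]; exact AffineSubspace.mem_top ℝ E x
  exact ⟨⟨x, hx⟩, rfl⟩

lemma sSup_add (s : Set ℝ) (c : ℝ) (hs : IsCompact s) (hne : s.Nonempty) :
    sSup ((fun r => r + c) '' s) = sSup s + c := by
  exact ((OrderIso.addRight c).map_csSup' hne hs.bddAbove).symm

lemma sInf_add (s : Set ℝ) (c : ℝ) (hs : IsCompact s) (hne : s.Nonempty) :
    sInf ((fun r => r + c) '' s) = sInf s + c := by
  exact ((OrderIso.addRight c).map_csInf' hne hs.bddBelow).symm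

lemma map_eq (ι : EuclideanSpace ℝ (Fin 2) →ᵃⁱ[ℝ] E) (x : EuclideanSpace ℝ (Fin 2)) :
    ι x = ι.linearIsometry x + ι 0 := by
  have h := ι.map_vadd 0 x
  simpa using h

lemma width_image (ι : EuclideanSpace ℝ (Fin 2) →ᵃⁱ[ℝ] E) (K : Set (EuclideanSpace ℝ (Fin 2)))
    (hK : IsCompact K) (hne : K.Nonempty) (v : EuclideanSpace ℝ (Fin 2)) :
    width (ι '' K) (ι.linearIsometry v) = width K v := by
  have h : (fun x => inner ℝ x (ι.linearIsometry v)) '' (ι '' K) =
      (fun r => r + inner ℝ (ι 0) (ι.linearIsometry v)) '' ((fun x => inner ℝ x v) '' K) := by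
    rw [image_image, image_image]
    apply image_congr
    intro x _
    rw [map_eq, inner_add_left, LinearIsometry.inner_map_map]
  have hc : IsCompact ((fun x => inner ℝ x v) '' K) := hK.image (by fun_prop)
  rw [width, width, h, sSup_add _ _ hc (hne.image _), sInf_add _ _ hc (hne.image _)]
  ring

lemma vectorSpan_image (ι : EuclideanSpace ℝ (Fin 2) →ᵃⁱ[ℝ] E)
    (K : Set (EuclideanSpace ℝ (Fin 2))) :
    vectorSpan ℝ (ι '' K) = (vectorSpan ℝ K).map ι.linearIsometry.toLinearMap := by
  have h := AffineMap.map_vectorSpan (f := ι.toAffineMap) (s := K)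
  exact h.symm

lemma image_isPlaneBody (ι : EuclideanSpace ℝ (Fin 2) →ᵃⁱ[ℝ] E)
    (K : Set (EuclideanSpace ℝ (Fin 2))) (hK : IsCompact K) (hc : Convex ℝ K)
    (hi : (interior K).Nonempty) (hw : ∀ u : EuclideanSpace ℝ (Fin 2), ‖u‖ = 1 → width K u = 1) :
    IsPlaneBodyOfConstantWidthOne (ι '' K) ∧ intrinsicFrontier ℝ (ι '' K) = ι '' frontier K := by
  have hspan : affineSpan ℝ K = ⊤ := hc.interior_nonempty_iff_affineSpan_eq_top.1 hi
  have hv : vectorSpan ℝ K = ⊤ := AffineSubspace.vectorSpan_eq_top_of_affineSpan_eq_top _ _ _ hspan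
  refine ⟨⟨hK.image ι.continuous, ?_, ?_, ?_⟩, ?_⟩
  · exact hc.affine_image ι.toAffineMap
  · rw [vectorSpan_image, hv, Submodule.map_top,
      LinearMap.finrank_range_of_inj ι.linearIsometry.injective]
    simp
  · intro u hu hu1
    rw [vectorSpan_image] at hu
    obtain ⟨v, -, rfl⟩ := hu
    have hv1 : ‖v‖ = 1 := by
      rw [← hu1]; exact (ι.linearIsometry.norm_map v).symm
    have := width_image ι K hK (hi.mono interior_subset) v
    rw [hw v hv1] at this
    exact this
  · rw [AffineIsometry.intrinsicFrontier_image, intrinsicFrontier_eq_frontier K hspan]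

lemma exists_model (B : Set E) (hB : IsPlaneBodyOfConstantWidthOne B) :
    ∃ (K : Set (EuclideanSpace ℝ (Fin 2))) (ι : EuclideanSpace ℝ (Fin 2) →ᵃⁱ[ℝ] E),
      IsCompact K ∧ Convex ℝ K ∧ (interior K).Nonempty ∧
      (∀ u : EuclideanSpace ℝ (Fin 2), ‖u‖ = 1 → width K u = 1) ∧ B = ι '' K := by
  obtain ⟨hBc, hBconv, hBplane, hBw⟩ := hB
  have hne : B.Nonempty := by
    by_contra h
    rw [not_nonempty_iff_eq_empty] at h
    rw [h, vectorSpan_empty] at hBplane
    simp at hBplane
  obtain ⟨x0, hx0⟩ := hne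
  set V := vectorSpan ℝ B with hV
  have : FiniteDimensional ℝ V := Module.finite_of_finrank_pos (by rw [hBplane]; norm_num)
  let b := (stdOrthonormalBasis ℝ V).reindex (finCongr hBplane)
  let L : EuclideanSpace ℝ (Fin 2) →ₗᵢ[ℝ] E := V.subtypeₗᵢ.comp b.repr.symm.toLinearIsometry
  let ι : EuclideanSpace ℝ (Fin 2) →ᵃⁱ[ℝ] E :=
    { toFun := fun v => L v + x0
      linear := L.toLinearMap
      map_vadd' := fun p v => by
        simp [add_assoc]
      norm_map := fun v => L.norm_map v }
  have hι : ∀ v, ι v = L v + x0 := fun v => rfl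
  have hBι : B = ι '' (ι ⁻¹' B) := by
    rw [image_preimage_eq_inter_range, eq_comm, inter_eq_left]
    intro y hy
    have h1 : y - x0 ∈ V := vsub_mem_vectorSpan ℝ hy hx0
    refine ⟨b.repr ⟨y - x0, h1⟩, ?_⟩
    rw [hι]
    simp [L]
  have hK : IsCompact (ι ⁻¹' B) :=
    ι.isometry.isClosedEmbedding.isCompact_preimage hBc
  have hKc : Convex ℝ (ι ⁻¹' B) := hBconv.affine_preimage ι.toAffineMap
  have hKne : (ι ⁻¹' B).Nonempty := by
    rw [hBι] at hx0
    exact image_nonempty.1 ⟨x0, hx0⟩
  have hvs : vectorSpan ℝ (ι ⁻¹' B) = ⊤ := by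
    apply Submodule.eq_top_of_finrank_eq
    have h1 := vectorSpan_image ι (ι ⁻¹' B)
    rw [← hBι] at h1
    rw [hV, h1, ← (Submodule.equivMapOfInjective ι.linearIsometry.toLinearMap
      ι.linearIsometry.injective (vectorSpan ℝ (ι ⁻¹' B))).finrank_eq] at hBplane
    rw [hBplane]
    simp
  have hspan : affineSpan ℝ (ι ⁻¹' B) = ⊤ :=
    (AffineSubspace.affineSpan_eq_top_iff_vectorSpan_eq_top_of_nonempty _ _ _ hKne).2 hvs
  refine ⟨ι ⁻¹' B, ι, hK, hKc, hKc.interior_nonempty_iff_affineSpan_eq_top.2 hspan, ?_, hBι⟩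
  intro v hv
  have h1 := width_image ι (ι ⁻¹' B) hK hKne v
  rw [← hBι] at h1
  rw [← h1]
  apply hBw
  · have h2 := vectorSpan_image ι (ι ⁻¹' B)
    rw [← hBι, hvs] at h2
    rw [hV, h2]
    exact ⟨v, trivial, rfl⟩
  · rw [ι.linearIsometry.norm_map, hv]

/-- The relative boundary of a plane body of constant width one has all farthest-point distances
equal to one. -/
lemma farthest_eq_one (B : Set E) (hB : IsPlaneBodyOfConstantWidthOne B) (x : E)
    (hx : x ∈ intrinsicFrontier ℝ B) : farthest (intrinsicFrontier ℝ B) x = 1 := by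
  obtain ⟨K, ι, hK, hKc, hKi, hw, rfl⟩ := exists_model B hB
  rw [(image_isPlaneBody ι K hK hKc hKi hw).2] at hx ⊢
  rw [width_one_iff] at hw
  obtain ⟨k, hk, rfl⟩ := hx
  have hle : ∀ y ∈ ι '' frontier K, dist (ι k) y ≤ 1 := by
    rintro _ ⟨y, hy, rfl⟩
    rw [ι.dist_map]
    exact J1136.cw_dist_le K hK hw k (hK.isClosed.frontier_subset hk) y
      (hK.isClosed.frontier_subset hy)
  obtain ⟨y, hy, h1⟩ := J1136.cw_exists K hK hKc (hKi.mono interior_subset) hw k hk
  have hmem : (1 : ℝ) ∈ (fun y => dist (ι k) y) '' (ι '' frontier K) :=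
    ⟨ι y, ⟨y, hy, rfl⟩, by simp only [ι.dist_map, h1]⟩
  apply le_antisymm
  · apply csSup_le ⟨_, hmem⟩
    rintro _ ⟨z, hz, rfl⟩
    exact hle z hz
  · apply le_csSup _ hmem
    refine ⟨1, ?_⟩
    rintro _ ⟨z, hz, rfl⟩
    exact hle z hz

end Space

/-- **Main theorem.** Let `d ≥ 2` and let `C = γ '' [0, 1]` be a closed curve of length `π` in
Euclidean `d`-space. Then the smallest farthest-point distance `m` of `C` exists and is at most `1`,
and `m = 1` if and only if `C` is the relative boundary of a plane convex body of constant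
width `1`. -/
theorem result (d : ℕ) (hd : 2 ≤ d) (γ : ℝ → EuclideanSpace ℝ (Fin d))
    (hγ : ContinuousOn γ (Icc 0 1)) (hcl : γ 0 = γ 1)
    (hL : eVariationOn γ (Icc 0 1) = ENNReal.ofReal π) :
    ∃ m : ℝ, IsLeast (farthest (γ '' Icc 0 1) '' (γ '' Icc 0 1)) m ∧ m ≤ 1 ∧
      (m = 1 ↔ ∃ B : Set (EuclideanSpace ℝ (Fin d)),
        IsPlaneBodyOfConstantWidthOne B ∧ γ '' Icc 0 1 = intrinsicFrontier ℝ B) := by
  set C := γ '' Icc (0:ℝ) 1 with hC
  have hCc : IsCompact C := isCompact_Icc.image_of_continuousOn hγ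
  have hCne : C.Nonempty := ⟨γ 0, 0, by simp, rfl⟩
  obtain ⟨x0, hx0, hmin⟩ := hCc.exists_isMinOn hCne (farthest_continuous C hCc).continuousOn
  have hfin : 2 ≤ Module.finrank ℝ (EuclideanSpace ℝ (Fin d)) := by
    simpa using hd
  have key : 1 ≤ farthest C x0 → ∃ B : Set (EuclideanSpace ℝ (Fin d)),
      IsPlaneBodyOfConstantWidthOne B ∧ C = intrinsicFrontier ℝ B := by
    intro h1
    obtain ⟨K, ι, hK, hKc, hKi, hw, hCK⟩ := structure_thm hfin γ hγ hcl hL.le (by
      intro x hx
      obtain ⟨y, hy, h2⟩ := exists_far C hCc hCne x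
      refine ⟨y, hy, ?_⟩
      rw [h2]
      exact h1.trans (hmin hx))
    obtain ⟨h3, h4⟩ := image_isPlaneBody ι K hK hKc hKi ((width_one_iff K).2 hw)
    exact ⟨ι '' K, h3, by rw [h4]; exact hCK⟩
  have conv : (∃ B : Set (EuclideanSpace ℝ (Fin d)),
      IsPlaneBodyOfConstantWidthOne B ∧ C = intrinsicFrontier ℝ B) → farthest C x0 = 1 := by
    rintro ⟨B, hB, hCB⟩
    have h5 := farthest_eq_one B hB x0 (by rw [← hCB]; exact hx0)
    rwa [← hCB] at h5
  refine ⟨farthest C x0, ⟨⟨x0, hx0, rfl⟩, ?_⟩, ?_, fun h => key h.ge, conv⟩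
  · rintro _ ⟨x, hx, rfl⟩
    exact hmin hx
  · by_contra h
    rw [not_le] at h
    have h2 := conv (key h.le)
    linarith

end Pool.Agent.Results.MP_30679c_gt.ClosedCurves
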